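import Pool.Agent.Helper58.KS.FIA
set_option autoImplicit false

namespace Pool.Agent.Helper58.KS

open Real

theorem kapsq : H11ST.KS.kap ^ 2 = (2 - √3) / 3 ∧ 0 < H11ST.KS.kap := by
  obtain ⟨hr, hr1, hr2⟩ := r3
  have h2 : √2 ^ 2 = (2 : ℝ) := Real.sq_sqrt (by norm_num)
  constructor
  · rw [H11ST.KS.kap, div_pow, h2]
    linear_combination (1 / 18) * hr
  · rw [H11ST.KS.kap]
    apply div_pos
    · linarith
    · positivity

theorem key4 (P G b r t : ℝ) (hP : 0 ≤ P) (hG : 0 ≤ G) (hr1 : (173205 / 100000 : ℝ) < r)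
    (hr2 : r < 173206 / 100000) (hbl : 28 / 100 * (1 - P - G) ≤ b)
    (hPb : (P + b) ^ 2 + G ^ 2 < t ^ 2) (ht : t ^ 2 ≤ 894 / 10000) :
    G + r * P ≤ r * b - 26 / 1000 * r := by
  by_contra hcon
  push Not at hcon
  have hG2 : G < 3 / 10 := by nlinarith [sq_nonneg (P + b)]
  have k0 : r * (28 / 100 * (1 - P - G)) ≤ r * b := mul_le_mul_of_nonneg_left hbl (by linarith)
  have k1 : r * P ≤ 173206 / 100000 * P := mul_le_mul_of_nonneg_right hr2.le hP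
  have k2 : r * G ≤ 173206 / 100000 * G := mul_le_mul_of_nonneg_right hr2.le hG
  have k3 : 4399 / 10000 ≤ 14851 / 10000 * G + 22171 / 10000 * P := by linarith
  have k4 : 4228 / 10000 - 7624 / 10000 * G ≤ P + b := by linarith
  have k5 : 0 ≤ 4228 / 10000 - 7624 / 10000 * G := by linarith
  have k6 : (4228 / 10000 - 7624 / 10000 * G) ^ 2 ≤ (P + b) ^ 2 := pow_le_pow_left₀ k5 k4 2
  nlinarith [sq_nonneg (G - 20 / 100)]

theorem pair (u c s y y' : ℝ) (hs : s ^ 2 = 1 - c ^ 2) (hs0 : 96 / 100 ≤ s)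
    (hc : c ^ 2 ≤ 67 / 1000) (hu : u ^ 2 ≤ 9 / 100) (hy : 95 / 100 ≤ y) (hy' : 95 / 100 ≤ y')
    (h1 : y ^ 2 = 1 - (u - c) ^ 2) (h2 : y' ^ 2 = 1 - (u + c) ^ 2) :
    2 * s - 12 / 10 * u ^ 2 ≤ y + y' := by
  have e1 : (y - y') * (y + y') = 4 * u * c := by linear_combination h1 - h2
  have e2 : (y - y') ^ 2 * (y + y') ^ 2 = 16 * (u ^ 2 * c ^ 2) := by
    rw [← mul_pow, e1]; ring
  have hσ : 36 / 10 ≤ (y + y') ^ 2 := by nlinarith
  have e3 : (y - y') ^ 2 ≤ 3 / 10 * u ^ 2 := by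
    have i1 := mul_le_mul_of_nonneg_left hσ (sq_nonneg (y - y'))
    have i2 := mul_le_mul_of_nonneg_left hc (sq_nonneg u)
    nlinarith [sq_nonneg u]
  have e4 : (y + y') ^ 2 = 4 * (s ^ 2 - u ^ 2) - (y - y') ^ 2 := by
    linear_combination 2 * h1 + 2 * h2 - 4 * hs
  by_contra hcon
  push Not at hcon
  have e6 : (y + y') ^ 2 < (2 * s - 12 / 10 * u ^ 2) ^ 2 :=
    pow_lt_pow_left₀ hcon (by linarith) (by norm_num)
  have e7 : 0 ≤ u ^ 2 * (48 / 10 * s - 144 / 100 * u ^ 2 - 43 / 10) :=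
    mul_nonneg (sq_nonneg u) (by linarith)
  nlinarith

/-- the difference of two roots -/
theorem xdiff (y y' p k : ℝ) (hy : 95 / 100 ≤ y) (hy' : 95 / 100 ≤ y')
    (h : ((y - y') * (y + y')) ^ 2 = 3 * p ^ 2 * k ^ 2) (hk : k ^ 2 ≤ 68 / 100) :
    (y - y') ^ 2 ≤ 6 / 10 * p ^ 2 := by
  have hσ : 36 / 10 ≤ (y + y') ^ 2 := by nlinarith
  have i1 := mul_le_mul_of_nonneg_left hσ (sq_nonneg (y - y'))
  have i2 := mul_le_mul_of_nonneg_left hk (sq_nonneg p)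
  rw [mul_pow] at h
  nlinarith [sq_nonneg p]

theorem zlem (r b t s : ℝ) (hr : r ^ 2 = 3) (hr1 : (173205 / 100000 : ℝ) < r)
    (hr2 : r < 173206 / 100000) (hb0 : 0 < b) (hbt : b < 3 / 10) (ht2 : t ^ 2 = (2 - r) / 3)
    (hb2 : b ^ 2 < t ^ 2) (hs : s ^ 2 = 1 - (r * b / 2) ^ 2) (hs0 : 96 / 100 ≤ s) (hs1 : s ≤ 1) :
    22 * (t ^ 2 - b ^ 2) ≤ 4 * s - (4 * r + 6) * b := by
  have hrp : 0 < r := by linarith
  have z1 : (4 * s - (4 * r + 6) * b) * (4 * s + (4 * r + 6) * b) =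
      (96 + 48 * r) * (t ^ 2 - b ^ 2) := by
    rw [ht2]
    linear_combination 16 * hs + (16 - 20 * b ^ 2) * hr
  have z2 : 0 < 4 * s + (4 * r + 6) * b := by
    have : 0 < (4 * r + 6) * b := by positivity
    linarith
  have z3 : 4 * s + (4 * r + 6) * b ≤ 8 := by
    have : (4 * r + 6) * b ≤ (4 * r + 6) * (3 / 10) :=
      mul_le_mul_of_nonneg_left hbt.le (by linarith)
    linarith
  have z4 : 176 * (t ^ 2 - b ^ 2) ≤ (96 + 48 * r) * (t ^ 2 - b ^ 2) := by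
    apply mul_le_mul_of_nonneg_right _ (by linarith)
    linarith
  by_contra hcon
  push Not at hcon
  have z5 : (4 * s - (4 * r + 6) * b) * (4 * s + (4 * r + 6) * b) <
      22 * (t ^ 2 - b ^ 2) * (4 * s + (4 * r + 6) * b) := mul_lt_mul_of_pos_right hcon z2
  have z6 : 22 * (t ^ 2 - b ^ 2) * (4 * s + (4 * r + 6) * b) ≤ 22 * (t ^ 2 - b ^ 2) * 8 :=
    mul_le_mul_of_nonneg_left z3 (by linarith)
  linarith

theorem gk (g k : ℝ) (hg : |g| < 3 / 10) (k0 : 0 < k) (k1 : k ≤ 52 / 100) :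
    (g - k) ^ 2 ≤ 68 / 100 ∧ (g + k) ^ 2 ≤ 68 / 100 := by
  obtain ⟨hg2, hg3⟩ := abs_lt.mp hg
  constructor
  · have : (g - k) ^ 2 ≤ (82 / 100) ^ 2 := by apply sq_le_sq' <;> linarith
    linarith
  · have : (g + k) ^ 2 ≤ (82 / 100) ^ 2 := by apply sq_le_sq' <;> linarith
    linarith

theorem tle (t : ℝ) (h : t ^ 2 ≤ 894 / 10000) : t ≤ 3 / 10 := by
  by_contra hcon
  push Not at hcon
  nlinarith

theorem mfin (r b t p g S X : ℝ) (hr : r ^ 2 = 3) (hr1 : (173205 / 100000 : ℝ) < r)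
    (hr2 : r < 173206 / 100000) (hbt : b < 3 / 10)
    (rb : r * b ≤ 51768 / 100000) (hm : p ^ 2 + g ^ 2 < t ^ 2 - b ^ 2)
    (hSL : 20 * (t ^ 2 - b ^ 2) ≤ S - (4 * r + 6) * b) (hS2 : 3816 / 1000 ≤ S)
    (hX : X ^ 2 / 4 ≤ 6 / 10 * p ^ 2) :
    (6 * b + S) * r / 3 + √(X ^ 2 / 4 + (S - 6 * b) ^ 2 / 12) < S := by
  have hg0 := sq_nonneg g
  have hp0 := sq_nonneg p
  have G1 : 26 / 10 * (t ^ 2 - b ^ 2) ≤ S * (2 - r) / 2 - r * b := by
    have n0 : S * (2 - r) / 2 - r * b = (S - (4 * r + 6) * b) * ((2 - r) / 2) := by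
      linear_combination (-(2 * b)) * hr
    rw [n0]
    have n1 : 20 * (t ^ 2 - b ^ 2) * ((2 - r) / 2) ≤ (S - (4 * r + 6) * b) * ((2 - r) / 2) :=
      mul_le_mul_of_nonneg_right hSL (by linarith)
    have n2 : 20 * (t ^ 2 - b ^ 2) * (13 / 100) ≤ 20 * (t ^ 2 - b ^ 2) * ((2 - r) / 2) :=
      mul_le_mul_of_nonneg_left (by linarith) (by linarith)
    linarith
  have G2 : 1 ≤ S * (6 - r) / 6 - 3 * r * b := by
    have n1 : 3816 / 1000 * (6 - r) ≤ S * (6 - r) :=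
      mul_le_mul_of_nonneg_right hS2 (by linarith)
    linarith
  have hQ : 0 < t ^ 2 - b ^ 2 := by linarith
  apply fin r S X b hr (by linarith) (by linarith)
  have n3 : 26 / 10 * (t ^ 2 - b ^ 2) * 1 ≤
      (S * (2 - r) / 2 - r * b) * (S * (6 - r) / 6 - 3 * r * b) :=
    mul_le_mul G1 G2 (by norm_num) (by linarith)
  linarith

theorem mgoal4 (r p g b t y0 y1 y2 y3 : ℝ) (hr : r ^ 2 = 3)
    (hr1 : (173205 / 100000 : ℝ) < r) (hr2 : r < 173206 / 100000) (hb0 : 0 < b)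
    (ht2 : t ^ 2 = (2 - r) / 3)
    (hbt : b < 3 / 10) (hg : |g| < 3 / 10)
    (a0 : 954 / 1000 ≤ y0) (a1 : 954 / 1000 ≤ y1) (a2 : 954 / 1000 ≤ y2) (a3 : 954 / 1000 ≤ y3)
    (c0 : y0 ^ 2 = 1 - ((g - r * (p + b)) / 2) ^ 2)
    (c1 : y1 ^ 2 = 1 - ((g - r * (b - p)) / 2) ^ 2)
    (c2 : y2 ^ 2 = 1 - ((g - r * (p - b)) / 2) ^ 2)
    (c3 : y3 ^ 2 = 1 - ((g - r * (-(p + b))) / 2) ^ 2)
    (q1 : (p + b) ^ 2 + g ^ 2 < t ^ 2) (q2 : (b - p) ^ 2 + g ^ 2 < t ^ 2) :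
    (6 * b + (y0 + y1 + y2 + y3 - 0 - 0 - 0 - 0)) * r / 3 +
      √((y0 - y1 + y2 - y3 - 0 + 0 - 0 + 0) ^ 2 / 4 +
        ((y0 + y1 + y2 + y3 - 0 - 0 - 0 - 0) - 6 * b) ^ 2 / 12) <
      y0 + y1 + y2 + y3 - 0 - 0 - 0 - 0 := by
  have hrp : 0 < r := by linarith
  have hm : p ^ 2 + g ^ 2 < t ^ 2 - b ^ 2 := by nlinarith
  have hb2 : b ^ 2 < t ^ 2 := by nlinarith [sq_nonneg p, sq_nonneg g]
  have ht3 : t ^ 2 ≤ 8932 / 100000 := by rw [ht2]; linarith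
  -- the value for `p = g = 0`
  obtain ⟨s, hs, hs0, hs1⟩ : ∃ s : ℝ, s ^ 2 = 1 - (r * b / 2) ^ 2 ∧ 96 / 100 ≤ s ∧ s ≤ 1 := by
    have h1 : (r * b / 2) ^ 2 = 3 / 4 * b ^ 2 := by linear_combination (b ^ 2 / 4) * hr
    refine ⟨√(1 - (r * b / 2) ^ 2), ?_, ?_, ?_⟩
    · apply Real.sq_sqrt
      rw [h1]
      linarith
    · apply Real.le_sqrt_of_sq_le
      rw [h1]
      linarith
    · rw [Real.sqrt_le_one, h1]
      linarith [sq_nonneg b]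
  have hc : (r * b / 2) ^ 2 ≤ 67 / 1000 := by
    have h1 : (r * b / 2) ^ 2 = 3 / 4 * b ^ 2 := by linear_combination (b ^ 2 / 4) * hr
    rw [h1]
    linarith
  have hu : ((g - r * p) / 2) ^ 2 ≤ 9 / 100 := by
    have h1 : ((g - r * p) / 2) ^ 2 = p ^ 2 + g ^ 2 - (p + r * g) ^ 2 / 4 := by
      linear_combination ((p ^ 2 + g ^ 2) / 4) * hr
    have h2 := sq_nonneg (p + r * g)
    have h3 := sq_nonneg b
    linarith
  have hw : ((g + r * p) / 2) ^ 2 ≤ 9 / 100 := by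
    have h1 : ((g + r * p) / 2) ^ 2 = p ^ 2 + g ^ 2 - (p - r * g) ^ 2 / 4 := by
      linear_combination ((p ^ 2 + g ^ 2) / 4) * hr
    have h2 := sq_nonneg (p - r * g)
    have h3 := sq_nonneg b
    linarith
  have P1 := pair ((g - r * p) / 2) (r * b / 2) s y0 y2 hs hs0 hc hu (by linarith) (by linarith)
    (by rw [c0]; ring) (by rw [c2]; ring)
  have P2 := pair ((g + r * p) / 2) (r * b / 2) s y1 y3 hs hs0 hc hw (by linarith) (by linarith)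
    (by rw [c1]; ring) (by rw [c3]; ring)
  have huw : ((g - r * p) / 2) ^ 2 + ((g + r * p) / 2) ^ 2 = (g ^ 2 + 3 * p ^ 2) / 2 := by
    linear_combination (p ^ 2 / 2) * hr
  have hz := zlem r b t s hr hr1 hr2 hb0 hbt ht2 hb2 hs hs0 hs1
  have hSL : 20 * (t ^ 2 - b ^ 2) ≤ y0 + y1 + y2 + y3 - (4 * r + 6) * b := by
    have := sq_nonneg g
    linarith
  have hS2 : 3816 / 1000 ≤ y0 + y1 + y2 + y3 := by linarith
  -- the difference
  have rb : r * b ≤ 51768 / 100000 := by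
    have i1 : b ≤ 29888 / 100000 := by
      by_contra hcon
      push Not at hcon
      have : (29888 / 100000 : ℝ) ^ 2 < b ^ 2 := pow_lt_pow_left₀ hcon (by norm_num) (by norm_num)
      linarith
    have i2 : r * b ≤ r * (29888 / 100000) := mul_le_mul_of_nonneg_left i1 hrp.le
    linarith
  have rb0 : 0 < r * b := by positivity
  obtain ⟨gk1, gk2⟩ := gk g (r * b) hg rb0 (by linarith)
  have X1 := xdiff y0 y1 p (g - r * b) (by linarith) (by linarith) (by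
    have : (y0 - y1) * (y0 + y1) = r * p * (g - r * b) := by
      linear_combination c0 - c1
    rw [this]
    linear_combination (p ^ 2 * (g - r * b) ^ 2) * hr) gk1
  have X2 := xdiff y2 y3 p (g + r * b) (by linarith) (by linarith) (by
    have : (y2 - y3) * (y2 + y3) = r * p * (g + r * b) := by
      linear_combination c2 - c3
    rw [this]
    linear_combination (p ^ 2 * (g + r * b) ^ 2) * hr) gk2
  have hX : (y0 - y1 + y2 - y3) ^ 2 / 4 ≤ 6 / 10 * p ^ 2 := by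
    have : (y0 - y1 + y2 - y3) ^ 2 = 2 * (y0 - y1) ^ 2 + 2 * (y2 - y3) ^ 2 -
        ((y0 - y1) - (y2 - y3)) ^ 2 := by ring
    have h2 := sq_nonneg ((y0 - y1) - (y2 - y3))
    linarith
  have eS : y0 + y1 + y2 + y3 - 0 - 0 - 0 - 0 = y0 + y1 + y2 + y3 := by ring
  have eX : y0 - y1 + y2 - y3 - 0 + 0 - 0 + 0 = y0 - y1 + y2 - y3 := by ring
  rw [eS, eX]
  exact mfin r b t p g _ _ hr hr1 hr2 hbt rb hm hSL hS2 hX

theorem fi4 : H11ST.KS.KS_FI4 := by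
  intro p g a R ha h1 h2 hτ hR0 hR C l hC0 hC1 hC2 hC3 hl0 hl1 hl2 hl3
  obtain ⟨b, rfl⟩ : ∃ b, a = 2 * b := ⟨a / 2, by ring⟩
  obtain ⟨hk, hk0⟩ := kapsq
  generalize H11ST.KS.kap = t at *
  obtain ⟨hr, hr1, hr2⟩ := r3
  generalize √3 = r at *
  have hr0 : r ≠ 0 := by linarith
  have hb0 : 0 < b := by linarith
  have q1 : (p + b) ^ 2 + g ^ 2 < t ^ 2 := by
    have e : (p + 2 * b / 2) = p + b := by ring
    rw [e] at h1
    exact h1
  have q2 : (b - p) ^ 2 + g ^ 2 < t ^ 2 := by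
    have e : (p - 2 * b / 2) ^ 2 = (b - p) ^ 2 := by ring
    rw [e] at h2
    exact h2
  have q3 : (p - b) ^ 2 + g ^ 2 < t ^ 2 := by
    have e : (p - b) ^ 2 = (b - p) ^ 2 := by ring
    rw [e]
    exact q2
  have q4 : (-(p + b)) ^ 2 + g ^ 2 < t ^ 2 := by
    have e : (-(p + b)) ^ 2 = (p + b) ^ 2 := by ring
    rw [e]
    exact q1
  obtain ⟨e0, e1, e2, e3⟩ := heq r p g b
  have z0 : (1 - 1) * R 0 = 0 := by ring
  have z1 : (1 - 1) * R 1 = 0 := by ring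
  have z2 : (1 - 1) * R 2 = 0 := by ring
  have z3 : (1 - 1) * R 3 = 0 := by ring
  rw [e0, z0] at hC0
  rw [e1, z1] at hC1
  rw [e2, z2] at hC2
  rw [e3, z3] at hC3
  have hyt : (954 / 1000 : ℝ) ^ 2 ≤ 1 - t ^ 2 := by
    rw [hk]
    linarith
  obtain ⟨a0, b0, c0⟩ := yb _ _ (954 / 1000) (hb r g _ _ hr q1) (by norm_num) hyt
  obtain ⟨a1, b1, c1⟩ := yb _ _ (954 / 1000) (hb r g _ _ hr q2) (by norm_num) hyt
  obtain ⟨a2, b2, c2⟩ := yb _ _ (954 / 1000) (hb r g _ _ hr q3) (by norm_num) hyt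
  obtain ⟨a3, b3, c3⟩ := yb _ _ (954 / 1000) (hb r g _ _ hr q4) (by norm_num) hyt
  obtain ⟨hbt, hp1, hg1⟩ := sizes p g b t hk0 q1 q2
  have ht4 : t ^ 2 ≤ 894 / 10000 := by
    rw [hk]
    linarith
  have ht3 := tle t ht4
  have hbl : 28 / 100 * (1 - |p| - |g|) ≤ b := by
    have := rootb p g
    linarith
  have key := key4 _ _ b r t (abs_nonneg p) (abs_nonneg g) hr1 hr2 hbl (Pb p g b _ q1 q2) ht4
  have hrp : 0 < r := by linarith
  obtain ⟨w0, w1, w2, w3⟩ := signs r b p g (26 / 1000) hrp (by linarith)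
  have hA : 2 / r * (1 * (473 / 1000)) = 946 / 1000 * r / 3 := by
    rw [hdv r hr hr0]
    ring
  have hbt3 : b < 3 / 10 := by linarith
  have hp3 : |p| < 3 / 10 := by linarith
  have hg3 : |g| < 3 / 10 := by linarith
  have hM := mgoal4 r p g b t _ _ _ _ hr hr1 hr2 hb0 hk hbt3 hg3 a0 a1 a2 a3 c0 c1 c2 c3 q1 q2
  rw [hA]
  clear hτ h1 h2 e0 e1 e2 e3 c0 c1 c2 c3 q1 q2 q3 q4 hbl key
  refine asm r p g b _ C l _ _ _ _ 0 0 0 0 hr hr0 hC0 hC1 hC2 hC3 hl0 hl1 hl2 hl3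
    (lgoal r b p g _ _ _ _ _ _ (954 / 1000) 0 hrp w0 a0 b1 le_rfl le_rfl (by norm_num))
    (lgoal r b (-p) g _ _ _ _ _ _ (954 / 1000) 0 hrp w1 a1 b0 le_rfl le_rfl (by norm_num))
    (lgoal r b (-p) (-g) _ _ _ _ _ _ (954 / 1000) 0 hrp w2 a2 b3 le_rfl le_rfl (by norm_num))
    (lgoal r b p (-g) _ _ _ _ _ _ (954 / 1000) 0 hrp w3 a3 b2 le_rfl le_rfl (by norm_num))
    ?_ ?_ hM
  · apply ngoal r b p g _ _ _ _ hr1 hr2 hb0 <;> linarith
  · have hg' : |(-g)| < 3 / 10 := by rw [abs_neg]; exact hg3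
    apply ngoal r b p (-g) _ _ _ _ hr1 hr2 hb0 <;> linarith

end Pool.Agent.Helper58.KS
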