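import Pool.Agent.Helper58.KS.FIA
set_option autoImplicit false

namespace Pool.Agent.Helper58.KS

open Real

theorem keyl (P G b r : ℝ) (hP : 0 ≤ P) (hG : 0 ≤ G) (hr1 : (173205 / 100000 : ℝ) < r)
    (hr2 : r < 173206 / 100000) (hbl : 1 / 4 * (1 - P - G) ≤ b)
    (hPb : (P + b) ^ 2 + G ^ 2 < (28 / 100) ^ 2) : G + r * P ≤ r * b := by
  by_contra hcon
  push Not at hcon
  have hG2 : G < 28 / 100 := by nlinarith [sq_nonneg (P + b)]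
  have k0 : r * (1 / 4 * (1 - P - G)) ≤ r * b := mul_le_mul_of_nonneg_left hbl (by linarith)
  have k1 : r * P ≤ 173206 / 100000 * P := mul_le_mul_of_nonneg_right hr2.le hP
  have k2 : r * G ≤ 173206 / 100000 * G := mul_le_mul_of_nonneg_right hr2.le hG
  have k3 : 433 / 1000 ≤ 1434 / 1000 * G + 2166 / 1000 * P := by linarith
  have k4 : 3999 / 10000 - 7467 / 10000 * G ≤ P + b := by linarith
  have k5 : 0 ≤ 3999 / 10000 - 7467 / 10000 * G := by linarith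
  have k6 : (3999 / 10000 - 7467 / 10000 * G) ^ 2 ≤ (P + b) ^ 2 := pow_le_pow_left₀ k5 k4 2
  nlinarith [sq_nonneg (G - 19 / 100)]

theorem dl (R : ℝ) (h0 : 0 ≤ R) (h1 : R ≤ 46 / 100) :
    0 ≤ (1 - 946 / 1000) * R ∧ (1 - 946 / 1000) * R ≤ 2484 / 100000 := by
  constructor <;> linarith

theorem mgoal3 (r p g b y0 y1 y2 y3 d0 d1 d2 d3 : ℝ) (hr : r ^ 2 = 3)
    (hr1 : (173205 / 100000 : ℝ) < r) (hr2 : r < 173206 / 100000) (hbt : b < 28 / 100)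
    (a0 : 96 / 100 ≤ y0) (a1 : 96 / 100 ≤ y1) (a2 : 96 / 100 ≤ y2) (a3 : 96 / 100 ≤ y3)
    (b0 : y0 ≤ 1) (b1 : y1 ≤ 1) (b2 : y2 ≤ 1) (b3 : y3 ≤ 1)
    (c0 : y0 ^ 2 = 1 - ((g - r * (p + b)) / 2) ^ 2)
    (c1 : y1 ^ 2 = 1 - ((g - r * (b - p)) / 2) ^ 2)
    (c2 : y2 ^ 2 = 1 - ((g - r * (p - b)) / 2) ^ 2)
    (c3 : y3 ^ 2 = 1 - ((g - r * (-(p + b))) / 2) ^ 2)
    (q1 : (p + b) ^ 2 + g ^ 2 < (28 / 100) ^ 2) (q2 : (b - p) ^ 2 + g ^ 2 < (28 / 100) ^ 2)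
    (D0 : 0 ≤ d0 ∧ d0 ≤ 2484 / 100000) (D1 : 0 ≤ d1 ∧ d1 ≤ 2484 / 100000)
    (D2 : 0 ≤ d2 ∧ d2 ≤ 2484 / 100000) (D3 : 0 ≤ d3 ∧ d3 ≤ 2484 / 100000) :
    (6 * b + (y0 + y1 + y2 + y3 - d0 - d1 - d2 - d3)) * r / 3 +
      √((y0 - y1 + y2 - y3 - d0 + d1 - d2 + d3) ^ 2 / 4 +
        ((y0 + y1 + y2 + y3 - d0 - d1 - d2 - d3) - 6 * b) ^ 2 / 12) <
      y0 + y1 + y2 + y3 - d0 - d1 - d2 - d3 := by
  have s0 := chord _ _ a0 b0 c0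
  have s1 := chord _ _ a1 b1 c1
  have s2 := chord _ _ a2 b2 c2
  have s3 := chord _ _ a3 b3 c3
  have hsum : ((g - r * (p + b)) / 2) ^ 2 + ((g - r * (b - p)) / 2) ^ 2 +
      ((g - r * (p - b)) / 2) ^ 2 + ((g - r * (-(p + b))) / 2) ^ 2 =
      3 * b ^ 2 + 3 * p ^ 2 + g ^ 2 := by
    linear_combination (p ^ 2 + b ^ 2) * hr
  have hsum2 : 3 * b ^ 2 + 3 * p ^ 2 + g ^ 2 ≤ 3 * (28 / 100) ^ 2 := by
    nlinarith [sq_nonneg g]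
  have hS : 388 / 100 ≤ y0 + y1 + y2 + y3 := by linarith
  have hrp : 0 < r := by linarith
  obtain ⟨D0, D0'⟩ := D0
  obtain ⟨D1, D1'⟩ := D1
  obtain ⟨D2, D2'⟩ := D2
  obtain ⟨D3, D3'⟩ := D3
  have hS' : 378064 / 100000 ≤ y0 + y1 + y2 + y3 - d0 - d1 - d2 - d3 := by linarith
  have hX1 : y0 - y1 + y2 - y3 - d0 + d1 - d2 + d3 ≤ 13 / 100 := by linarith
  have hX2 : -(13 / 100) ≤ y0 - y1 + y2 - y3 - d0 + d1 - d2 + d3 := by linarith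
  clear c0 c1 c2 c3 s0 s1 s2 s3 hsum hsum2 hS a0 a1 a2 a3 b0 b1 b2 b3 q1 q2 D0 D0' D1 D1' D2 D2'
    D3 D3'
  generalize y0 + y1 + y2 + y3 - d0 - d1 - d2 - d3 = S at *
  generalize y0 - y1 + y2 - y3 - d0 + d1 - d2 + d3 = X at *
  have n2 : r * b ≤ r * (28 / 100) := mul_le_mul_of_nonneg_left hbt.le hrp.le
  have G1 : 21 / 1000 ≤ S * (2 - r) / 2 - r * b := by
    have n1 : 378064 / 100000 * (2 - r) ≤ S * (2 - r) :=
      mul_le_mul_of_nonneg_right hS' (by linarith)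
    linarith
  have G2 : 12 / 10 ≤ S * (6 - r) / 6 - 3 * r * b := by
    have n1 : 378064 / 100000 * (6 - r) ≤ S * (6 - r) :=
      mul_le_mul_of_nonneg_right hS' (by linarith)
    linarith
  apply fin r S X b hr (by linarith) (by linarith)
  have n3 : 21 / 1000 * (12 / 10) ≤ (S * (2 - r) / 2 - r * b) * (S * (6 - r) / 6 - 3 * r * b) :=
    mul_le_mul G1 G2 (by norm_num) (by linarith)
  have n4 : X ^ 2 ≤ (13 / 100) ^ 2 := sq_le_sq' hX2 hX1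
  linarith

theorem fi3 : H11ST.KS.KS_FI3 := by
  intro p g a R ha h1 h2 hτ hR0 hR C l hC0 hC1 hC2 hC3 hl0 hl1 hl2 hl3
  obtain ⟨b, rfl⟩ : ∃ b, a = 2 * b := ⟨a / 2, by ring⟩
  obtain ⟨hr, hr1, hr2⟩ := r3
  generalize √3 = r at *
  have hr0 : r ≠ 0 := by linarith
  have hb0 : 0 < b := by linarith
  have q1 : (p + b) ^ 2 + g ^ 2 < (28 / 100) ^ 2 := by
    have e : (p + 2 * b / 2) = p + b := by ring
    rw [e] at h1
    exact h1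
  have q2 : (b - p) ^ 2 + g ^ 2 < (28 / 100) ^ 2 := by
    have e : (p - 2 * b / 2) ^ 2 = (b - p) ^ 2 := by ring
    rw [e] at h2
    exact h2
  have q3 : (p - b) ^ 2 + g ^ 2 < (28 / 100) ^ 2 := by
    have e : (p - b) ^ 2 = (b - p) ^ 2 := by ring
    rw [e]
    exact q2
  have q4 : (-(p + b)) ^ 2 + g ^ 2 < (28 / 100) ^ 2 := by
    have e : (-(p + b)) ^ 2 = (p + b) ^ 2 := by ring
    rw [e]
    exact q1
  obtain ⟨e0, e1, e2, e3⟩ := heq r p g b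
  rw [e0] at hC0
  rw [e1] at hC1
  rw [e2] at hC2
  rw [e3] at hC3
  obtain ⟨a0, b0, c0⟩ := yb _ _ (96 / 100) (hb r g _ _ hr q1) (by norm_num) (by norm_num)
  obtain ⟨a1, b1, c1⟩ := yb _ _ (96 / 100) (hb r g _ _ hr q2) (by norm_num) (by norm_num)
  obtain ⟨a2, b2, c2⟩ := yb _ _ (96 / 100) (hb r g _ _ hr q3) (by norm_num) (by norm_num)
  obtain ⟨a3, b3, c3⟩ := yb _ _ (96 / 100) (hb r g _ _ hr q4) (by norm_num) (by norm_num)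
  have D0 := dl (R 0) (hR0 0) (hR 0)
  have D1 := dl (R 1) (hR0 1) (hR 1)
  have D2 := dl (R 2) (hR0 2) (hR 2)
  have D3 := dl (R 3) (hR0 3) (hR 3)
  obtain ⟨hbt, hp1, hg1⟩ := sizes p g b (28 / 100) (by norm_num) q1 q2
  have hbl : 1 / 4 * (1 - |p| - |g|) ≤ b := by
    have := rootb p g
    linarith
  have key := keyl _ _ b r (abs_nonneg p) (abs_nonneg g) hr1 hr2 hbl (Pb p g b _ q1 q2)
  have hrp : 0 < r := by linarith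
  obtain ⟨w0, w1, w2, w3⟩ := signs r b p g 0 hrp (by linarith)
  have hA : 2 / r * (946 / 1000 * (46 / 100)) = 87032 / 100000 * r / 3 := by
    rw [hdv r hr hr0]
    ring
  have hM := mgoal3 r p g b _ _ _ _ _ _ _ _ hr hr1 hr2 hbt a0 a1 a2 a3 b0 b1 b2 b3 c0 c1 c2 c3 q1 q2
    D0 D1 D2 D3
  rw [hA]
  clear hτ h1 h2 e0 e1 e2 e3 c0 c1 c2 c3 q1 q2 q3 q4 hbl key
  refine asm r p g b _ C l _ _ _ _ _ _ _ _ hr hr0 hC0 hC1 hC2 hC3 hl0 hl1 hl2 hl3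
    (lgoal r b p g _ _ _ _ 0 _ (96 / 100) (2484 / 100000) hrp w0 a0 b1 D0.2 D1.1 (by norm_num))
    (lgoal r b (-p) g _ _ _ _ 0 _ (96 / 100) (2484 / 100000) hrp w1 a1 b0 D1.2 D0.1 (by norm_num))
    (lgoal r b (-p) (-g) _ _ _ _ 0 _ (96 / 100) (2484 / 100000) hrp w2 a2 b3 D2.2 D3.1
      (by norm_num))
    (lgoal r b p (-g) _ _ _ _ 0 _ (96 / 100) (2484 / 100000) hrp w3 a3 b2 D3.2 D2.1 (by norm_num))
    ?_ ?_ hM
  · apply ngoal r b p g _ _ _ _ hr1 hr2 hb0 <;> linarith [D0.1, D0.2, D1.1, D1.2]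
  · have hg' : |(-g)| < 28 / 100 := by rw [abs_neg]; exact hg1
    apply ngoal r b p (-g) _ _ _ _ hr1 hr2 hb0 <;> linarith [D2.1, D2.2, D3.1, D3.2]

end Pool.Agent.Helper58.KS
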