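import Pool.Agent.Helper11.KS.Sheet
set_option autoImplicit false

namespace Pool.Agent.Helper58.KS

open Real

theorem fin (r S X b : ℝ) (hr : r ^ 2 = 3) (h1 : 0 < S * (2 - r) / 2 - r * b)
    (h2 : 0 < S * (6 - r) / 6 - 3 * r * b)
    (h3 : X ^ 2 / 4 < (S * (2 - r) / 2 - r * b) * (S * (6 - r) / 6 - 3 * r * b)) :
    (6 * b + S) * r / 3 + √(X ^ 2 / 4 + (S - 6 * b) ^ 2 / 12) < S := by
  have hy : 0 < S - (6 * b + S) * r / 3 := by nlinarith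
  have h4 : √(X ^ 2 / 4 + (S - 6 * b) ^ 2 / 12) < S - (6 * b + S) * r / 3 := by
    rw [Real.sqrt_lt' hy]
    have h5 : (S - (6 * b + S) * r / 3) ^ 2 - (S - 6 * b) ^ 2 / 12 =
        (S * (2 - r) / 2 - r * b) * (S * (6 - r) / 6 - 3 * r * b) := by
      linear_combination ((S - 6 * b) ^ 2 / 36) * hr
    linarith
  linarith

theorem hb (r g q t : ℝ) (hr : r ^ 2 = 3) (h : q ^ 2 + g ^ 2 < t ^ 2) :
    ((g - r * q) / 2) ^ 2 < t ^ 2 := by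
  have h1 : ((g - r * q) / 2) ^ 2 = q ^ 2 + g ^ 2 - (q + r * g) ^ 2 / 4 := by
    linear_combination ((q ^ 2 + g ^ 2) / 4) * hr
  have h2 := sq_nonneg (q + r * g)
  linarith

theorem yb (h t yl : ℝ) (hh : h ^ 2 < t ^ 2) (hyl : 0 ≤ yl) (hyl2 : yl ^ 2 ≤ 1 - t ^ 2) :
    yl ≤ √(1 - h ^ 2) ∧ √(1 - h ^ 2) ≤ 1 ∧ √(1 - h ^ 2) ^ 2 = 1 - h ^ 2 := by
  have h0 : 0 ≤ 1 - h ^ 2 := by nlinarith [sq_nonneg yl]
  refine ⟨?_, ?_, Real.sq_sqrt h0⟩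
  · apply Real.le_sqrt_of_sq_le
    linarith
  · rw [Real.sqrt_le_one]
    nlinarith [sq_nonneg h]

theorem hdv (r : ℝ) (hr : r ^ 2 = 3) (hr0 : r ≠ 0) (x : ℝ) : x / r = x * r / 3 := by
  rw [div_eq_iff hr0]
  linear_combination (-(x / 3)) * hr

theorem hdv2 (r : ℝ) (hr : r ^ 2 = 3) (hr0 : r ≠ 0) (x : ℝ) : x / (2 * r) = x * r / 6 := by
  rw [div_eq_iff (by positivity)]
  linear_combination (-(x / 3)) * hr

theorem r3 : √3 ^ 2 = (3 : ℝ) ∧ (173205 / 100000 : ℝ) < √3 ∧ √3 < 173206 / 100000 := by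
  refine ⟨Real.sq_sqrt (by norm_num), ?_, ?_⟩
  · rw [Real.lt_sqrt (by norm_num)]
    norm_num
  · rw [Real.sqrt_lt' (by norm_num)]
    norm_num

theorem chord (y h : ℝ) (hy1 : 96 / 100 ≤ y) (hy2 : y ≤ 1) (hy3 : y ^ 2 = 1 - h ^ 2) :
    1 - 25 / 49 * h ^ 2 ≤ y := by
  have h1 : 0 ≤ (1 - y) * (25 * y - 24) := mul_nonneg (by linarith) (by linarith)
  nlinarith

/-- the arms -/
theorem lgoal (r b p g y y' d d' e K yl D : ℝ) (hrp : 0 < r) (he : e * r ≤ r * (b - p) - g)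
    (hy : yl ≤ y) (hy' : y' ≤ 1) (hd : d ≤ D) (hd' : 0 ≤ d')
    (hK : K / 3 ≤ e / 2 + (2 * yl - 1 - 2 * D) / 3) :
    K * r / 3 ≤ (r * (b - p) - g) / 2 + (2 * y - y' - 2 * d + d') * r / 3 := by
  have h1 : (2 * yl - 1 - 2 * D) * r ≤ (2 * y - y' - 2 * d + d') * r := by
    apply mul_le_mul_of_nonneg_right _ hrp.le
    linarith
  have h2 : K / 3 * r ≤ (e / 2 + (2 * yl - 1 - 2 * D) / 3) * r :=
    mul_le_mul_of_nonneg_right hK hrp.le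
  nlinarith

/-- the new tripod points are in the disc -/
theorem ngoal (r b p g y y' d d' : ℝ) (hr1 : (173205 / 100000 : ℝ) < r)
    (hr2 : r < 173206 / 100000) (hb : 0 < b) (hbt : b < 3 / 10) (hp : |p| < 3 / 10)
    (hg : |g| < 3 / 10) (hy : 95 / 100 ≤ y) (hy1 : y ≤ 1) (hy' : 95 / 100 ≤ y') (hy1' : y' ≤ 1)
    (hd : 0 ≤ d) (hdD : d ≤ 25 / 1000) (hd' : 0 ≤ d') (hdD' : d' ≤ 25 / 1000) :
    (3 / 2 * p + (y' - y + d - d') / 2) ^ 2 +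
      (g / 2 + (y + y' - 3 * b - d - d') * r / 6) ^ 2 ≤ 1 := by
  obtain ⟨hp2, hp3⟩ := abs_lt.mp hp
  obtain ⟨hg2, hg3⟩ := abs_lt.mp hg
  have hrp : 0 < r := by linarith
  have m1 : (y + y' - 3 * b - d - d') * r ≤ 2 * r := by
    apply mul_le_mul_of_nonneg_right _ hrp.le
    linarith
  have m2 : 9 / 10 * r ≤ (y + y' - 3 * b - d - d') * r := by
    apply mul_le_mul_of_nonneg_right _ hrp.le
    linarith
  have m3 : (3 / 2 * p + (y' - y + d - d') / 2) ^ 2 ≤ (1 / 2) ^ 2 := by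
    apply sq_le_sq' <;> linarith
  have m4 : (g / 2 + (y + y' - 3 * b - d - d') * r / 6) ^ 2 ≤ (3 / 4) ^ 2 := by
    apply sq_le_sq' <;> linarith
  linarith

/-- assembly of the row from the values of the square roots -/
theorem asm (r p g b K : ℝ) (C l : Fin 4 → ℝ) (y0 y1 y2 y3 d0 d1 d2 d3 : ℝ)
    (hr : r ^ 2 = 3) (hr0 : r ≠ 0)
    (hC0 : C 0 = y0 - ((p + 2 * b / 2) / 2 + r / 2 * g) - d0)
    (hC1 : C 1 = y1 - (-(p - 2 * b / 2) / 2 + r / 2 * g) - d1)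
    (hC2 : C 2 = y2 - (-(p - 2 * b / 2) / 2 - r / 2 * g) - d2)
    (hC3 : C 3 = y3 - ((p + 2 * b / 2) / 2 - r / 2 * g) - d3)
    (hl0 : l 0 = (2 * b + (C 0 + C 1) / 2) / r + r / 2 * (C 0 - C 1))
    (hl1 : l 1 = (2 * b + (C 0 + C 1) / 2) / r - r / 2 * (C 0 - C 1))
    (hl2 : l 2 = (2 * b + (C 2 + C 3) / 2) / r + r / 2 * (C 2 - C 3))
    (hl3 : l 3 = (2 * b + (C 2 + C 3) / 2) / r - r / 2 * (C 2 - C 3))
    (g0 : K * r / 3 ≤ (r * (b - p) - g) / 2 + (2 * y0 - y1 - 2 * d0 + d1) * r / 3)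
    (g1 : K * r / 3 ≤ (r * (b - -p) - g) / 2 + (2 * y1 - y0 - 2 * d1 + d0) * r / 3)
    (g2 : K * r / 3 ≤ (r * (b - -p) - -g) / 2 + (2 * y2 - y3 - 2 * d2 + d3) * r / 3)
    (g3 : K * r / 3 ≤ (r * (b - p) - -g) / 2 + (2 * y3 - y2 - 2 * d3 + d2) * r / 3)
    (n1 : (3 / 2 * p + (y1 - y0 + d0 - d1) / 2) ^ 2 +
      (g / 2 + (y0 + y1 - 3 * b - d0 - d1) * r / 6) ^ 2 ≤ 1)
    (n2 : (3 / 2 * p + (y2 - y3 + d3 - d2) / 2) ^ 2 +
      (-g / 2 + (y3 + y2 - 3 * b - d3 - d2) * r / 6) ^ 2 ≤ 1)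
    (m : (6 * b + (y0 + y1 + y2 + y3 - d0 - d1 - d2 - d3)) * r / 3 +
      √((y0 - y1 + y2 - y3 - d0 + d1 - d2 + d3) ^ 2 / 4 +
        ((y0 + y1 + y2 + y3 - d0 - d1 - d2 - d3) - 6 * b) ^ 2 / 12) <
      y0 + y1 + y2 + y3 - d0 - d1 - d2 - d3) :
    (∀ i, K * r / 3 ≤ l i) ∧
    (p + (C 1 - C 0) / 2) ^ 2 + (g + (C 0 + C 1 - 2 * b) / (2 * r)) ^ 2 ≤ 1 ∧
    (p + (C 2 - C 3) / 2) ^ 2 + (g - (C 2 + C 3 - 2 * b) / (2 * r)) ^ 2 ≤ 1 ∧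
    l 0 + l 1 + l 2 + l 3 + √((C 0 + C 2 - C 1 - C 3) ^ 2 / 4 +
      (C 0 + C 1 + C 2 + C 3 - 2 * (2 * b)) ^ 2 / 12) < 2 * b + (C 0 + C 1 + C 2 + C 3) := by
  rw [hdv r hr hr0] at hl0 hl1 hl2 hl3
  have L0 : l 0 = (r * (b - p) - g) / 2 + (2 * y0 - y1 - 2 * d0 + d1) * r / 3 := by
    rw [hl0, hC0, hC1]
    linear_combination (-(g / 6)) * hr
  have L1 : l 1 = (r * (b - -p) - g) / 2 + (2 * y1 - y0 - 2 * d1 + d0) * r / 3 := by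
    rw [hl1, hC0, hC1]
    linear_combination (-(g / 6)) * hr
  have L2 : l 2 = (r * (b - -p) - -g) / 2 + (2 * y2 - y3 - 2 * d2 + d3) * r / 3 := by
    rw [hl2, hC2, hC3]
    linear_combination (g / 6) * hr
  have L3 : l 3 = (r * (b - p) - -g) / 2 + (2 * y3 - y2 - 2 * d3 + d2) * r / 3 := by
    rw [hl3, hC2, hC3]
    linear_combination (g / 6) * hr
  refine ⟨?_, ?_, ?_, ?_⟩
  · intro i
    fin_cases i
    · change _ ≤ l 0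
      rw [L0]
      exact g0
    · change _ ≤ l 1
      rw [L1]
      exact g1
    · change _ ≤ l 2
      rw [L2]
      exact g2
    · change _ ≤ l 3
      rw [L3]
      exact g3
  · rw [hdv2 r hr hr0]
    have hA1 : p + (C 1 - C 0) / 2 = 3 / 2 * p + (y1 - y0 + d0 - d1) / 2 := by
      rw [hC0, hC1]; ring
    have hB1 : g + (C 0 + C 1 - 2 * b) * r / 6 =
        g / 2 + (y0 + y1 - 3 * b - d0 - d1) * r / 6 := by
      rw [hC0, hC1]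
      linear_combination (-(g / 6)) * hr
    rw [hA1, hB1]
    exact n1
  · rw [hdv2 r hr hr0]
    have hA1 : p + (C 2 - C 3) / 2 = 3 / 2 * p + (y2 - y3 + d3 - d2) / 2 := by
      rw [hC2, hC3]; ring
    have hB1 : g - (C 2 + C 3 - 2 * b) * r / 6 =
        -(-g / 2 + (y3 + y2 - 3 * b - d3 - d2) * r / 6) := by
      rw [hC2, hC3]
      linear_combination (-(g / 6)) * hr
    rw [hA1, hB1, neg_sq]
    exact n2
  · have E1 : C 0 + C 2 - C 1 - C 3 = y0 - y1 + y2 - y3 - d0 + d1 - d2 + d3 := by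
      rw [hC0, hC1, hC2, hC3]; ring
    have E2 : C 0 + C 1 + C 2 + C 3 - 2 * (2 * b) =
        (y0 + y1 + y2 + y3 - d0 - d1 - d2 - d3) - 6 * b := by
      rw [hC0, hC1, hC2, hC3]; ring
    have E3 : 2 * b + (C 0 + C 1 + C 2 + C 3) = y0 + y1 + y2 + y3 - d0 - d1 - d2 - d3 := by
      rw [hC0, hC1, hC2, hC3]; ring
    have E4 : l 0 + l 1 + l 2 + l 3 =
        (6 * b + (y0 + y1 + y2 + y3 - d0 - d1 - d2 - d3)) * r / 3 := by
      rw [L0, L1, L2, L3]; ring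
    rw [E1, E2, E3, E4]
    exact m

theorem heq (r p g b : ℝ) : (g - r * p) / 2 - r / 4 * (2 * b) = (g - r * (p + b)) / 2 ∧
    (g + r * p) / 2 - r / 4 * (2 * b) = (g - r * (b - p)) / 2 ∧
    (g - r * p) / 2 + r / 4 * (2 * b) = (g - r * (p - b)) / 2 ∧
    (g + r * p) / 2 + r / 4 * (2 * b) = (g - r * (-(p + b))) / 2 := by
  refine ⟨?_, ?_, ?_, ?_⟩ <;> ring

theorem sizes (p g b t : ℝ) (ht : 0 < t) (q1 : (p + b) ^ 2 + g ^ 2 < t ^ 2)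
    (q2 : (b - p) ^ 2 + g ^ 2 < t ^ 2) : b < t ∧ |p| < t ∧ |g| < t := by
  refine ⟨?_, ?_, ?_⟩
  · nlinarith [sq_nonneg p, sq_nonneg g]
  · apply abs_lt_of_sq_lt_sq _ ht.le
    nlinarith [sq_nonneg b, sq_nonneg g]
  · apply abs_lt_of_sq_lt_sq _ ht.le
    nlinarith [sq_nonneg b, sq_nonneg p]

theorem rootb (p g : ℝ) : √(p ^ 2 + g ^ 2) ≤ |p| + |g| := by
  rw [Real.sqrt_le_left (by positivity)]
  nlinarith [sq_abs p, sq_abs g, mul_nonneg (abs_nonneg p) (abs_nonneg g)]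

theorem Pb (p g b t : ℝ) (q1 : (p + b) ^ 2 + g ^ 2 < t ^ 2)
    (q2 : (b - p) ^ 2 + g ^ 2 < t ^ 2) : (|p| + b) ^ 2 + |g| ^ 2 < t ^ 2 := by
  rw [sq_abs g]
  rcases abs_cases p with ⟨h, _⟩ | ⟨h, _⟩
  · rw [h]
    exact q1
  · rw [h]
    have e : (-p + b) ^ 2 = (b - p) ^ 2 := by ring
    rw [e]
    exact q2

/-- from the absolute values to all the signs -/
theorem signs (r b p g e : ℝ) (hr : 0 < r) (h : |g| + r * |p| ≤ r * b - e * r) :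
    e * r ≤ r * (b - p) - g ∧ e * r ≤ r * (b - -p) - g ∧ e * r ≤ r * (b - -p) - -g ∧
      e * r ≤ r * (b - p) - -g := by
  have ab1 : r * p ≤ r * |p| := mul_le_mul_of_nonneg_left (le_abs_self p) hr.le
  have ab2 : r * -p ≤ r * |p| := mul_le_mul_of_nonneg_left (neg_le_abs p) hr.le
  have ab3 := le_abs_self g
  have ab4 := neg_le_abs g
  refine ⟨?_, ?_, ?_, ?_⟩ <;> linarith

end Pool.Agent.Helper58.KS
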